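import Mathlib

/-! # MP_e5975b_an, Q1: disconnected solution sets of symmetric monotone problems

All three parts (a), (b), (c) of Q1 are false. There are a closed convex set `K` in `ℝ³` and two
constant maps `F_1`, `F_2` (so the problem is symmetric and monotone, and it is a linear vector
optimization problem on `K`) such that the weak Pareto, the Pareto and the proper Pareto solution
sets are nonempty and disconnected.

The example: `F_1 = (2, 0, -1)`, `F_2 = (-2, 0, -1)`, and `K` is the set of the points `(x, y, w)`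
with `w ≥ 0`, `y ≥ 0`, `|x| + w ≤ 1` and `w ^ 2 ≤ y (1 - |x| - w)`. For `|x| < 1` the coordinate `w`
can be increased to, but does not reach, `1 - |x|`, so that there are no solutions with `|x| < 1`;
there are solutions with `x = 1` and with `x = -1`. -/

namespace Pool.Agent.Results.MP_e5975b_an.Disconnected

open scoped InnerProductSpace

variable {n m : ℕ}

/-- The Pareto solution set: `F (x) (x - y)` is not in `C \ {0}`, for all `y` in `K`. -/
def Sol (F : Fin m → EuclideanSpace ℝ (Fin n) → EuclideanSpace ℝ (Fin n))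
    (K : Set (EuclideanSpace ℝ (Fin n))) : Set (EuclideanSpace ℝ (Fin n)) :=
  {x | x ∈ K ∧ ∀ y ∈ K, ¬ ((∀ l, 0 ≤ ⟪F l x, x - y⟫_ℝ) ∧ ∃ l, ⟪F l x, x - y⟫_ℝ ≠ 0)}

/-- The weak Pareto solution set: `F (x) (x - y)` is not in the interior of `C`, for all `y` in
`K`. -/
def SolW (F : Fin m → EuclideanSpace ℝ (Fin n) → EuclideanSpace ℝ (Fin n))
    (K : Set (EuclideanSpace ℝ (Fin n))) : Set (EuclideanSpace ℝ (Fin n)) :=
  {x | x ∈ K ∧ ∀ y ∈ K, ¬ (∀ l, 0 < ⟪F l x, x - y⟫_ℝ)}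

/-- The proper Pareto solution set: the union of the solution sets of the variational inequalities
given by `F_ξ = Σ ξ_l F_l`, for positive weights `ξ_l` with sum one. -/
def SolPr (F : Fin m → EuclideanSpace ℝ (Fin n) → EuclideanSpace ℝ (Fin n))
    (K : Set (EuclideanSpace ℝ (Fin n))) : Set (EuclideanSpace ℝ (Fin n)) :=
  {x | ∃ ξ : Fin m → ℝ, (∀ l, 0 < ξ l) ∧ ∑ l, ξ l = 1 ∧ x ∈ K ∧
    ∀ y ∈ K, 0 ≤ ⟪∑ l, ξ l • F l x, y - x⟫_ℝ}

/-- The problem is monotone. -/
def Monotone' (F : Fin m → EuclideanSpace ℝ (Fin n) → EuclideanSpace ℝ (Fin n))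
    (K : Set (EuclideanSpace ℝ (Fin n))) : Prop :=
  ∀ l, ∀ x ∈ K, ∀ y ∈ K, 0 ≤ ⟪F l y - F l x, y - x⟫_ℝ

/-- The problem is symmetric: every `F l` is differentiable on an open set containing `K`, and its
Jacobian matrix is symmetric at the points of `K`. -/
def Symmetric' (F : Fin m → EuclideanSpace ℝ (Fin n) → EuclideanSpace ℝ (Fin n))
    (K : Set (EuclideanSpace ℝ (Fin n))) : Prop :=
  ∀ l, (∃ U : Set (EuclideanSpace ℝ (Fin n)), IsOpen U ∧ K ⊆ U ∧
      ∀ x ∈ U, DifferentiableAt ℝ (F l) x) ∧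
    ∀ x ∈ K, ∀ i j : Fin n,
      (fderiv ℝ (F l) x (EuclideanSpace.single j 1)) i
        = (fderiv ℝ (F l) x (EuclideanSpace.single i 1)) j

/-! ### The example -/

/-- The constant maps. -/
noncomputable def F0 : Fin 2 → EuclideanSpace ℝ (Fin 3) → EuclideanSpace ℝ (Fin 3) :=
  fun l _ => if l = 0 then !₂[2, 0, -1] else !₂[-2, 0, -1]

/-- The closed convex set. -/
def K0 : Set (EuclideanSpace ℝ (Fin 3)) :=
  {p | 0 ≤ p 1 ∧ 0 ≤ p 2 ∧ |p 0| + p 2 ≤ 1 ∧ p 2 ^ 2 ≤ p 1 * (1 - |p 0| - p 2)}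

lemma K0_closed : IsClosed K0 := by
  have c0 : Continuous fun p : EuclideanSpace ℝ (Fin 3) => p 0 := by fun_prop
  have c1 : Continuous fun p : EuclideanSpace ℝ (Fin 3) => p 1 := by fun_prop
  have c2 : Continuous fun p : EuclideanSpace ℝ (Fin 3) => p 2 := by fun_prop
  refine (isClosed_le continuous_const c1).inter ((isClosed_le continuous_const c2).inter
    ((isClosed_le (c0.abs.add c2) continuous_const).inter
    (isClosed_le (c2.pow 2) (c1.mul ((continuous_const.sub c0.abs).sub c2)))))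

lemma K0_convex : Convex ℝ K0 := by
  intro p hp q hq a b ha hb hab
  obtain ⟨p1, p2, p3, p4⟩ := hp
  obtain ⟨q1, q2, q3, q4⟩ := hq
  have e : ∀ i, (a • p + b • q) i = a * p i + b * q i := fun i => by simp
  have habs : |a * p 0 + b * q 0| ≤ a * |p 0| + b * |q 0| := by
    refine (abs_add_le _ _).trans (le_of_eq ?_)
    rw [abs_mul, abs_mul, abs_of_nonneg ha, abs_of_nonneg hb]
  have s1 : 0 ≤ 1 - |p 0| - p 2 := by linarith
  have s2 : 0 ≤ 1 - |q 0| - q 2 := by linarith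
  refine ⟨?_, ?_, ?_, ?_⟩
  · rw [e]; positivity
  · rw [e]; positivity
  · rw [e, e]
    nlinarith [mul_le_mul_of_nonneg_left p3 ha, mul_le_mul_of_nonneg_left q3 hb]
  · rw [e, e, e]
    set u := 1 - |p 0| - p 2 with hu
    set v := 1 - |q 0| - q 2 with hv
    have h1 : a * u + b * v ≤ 1 - |a * p 0 + b * q 0| - (a * p 2 + b * q 2) := by
      have : a * u + b * v = (a + b) - (a * |p 0| + b * |q 0|) - (a * p 2 + b * q 2) := by
        rw [hu, hv]; ring
      rw [this, hab]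
      linarith
    have h2 : (a * p 2 + b * q 2) ^ 2 ≤ (a * p 1 + b * q 1) * (a * u + b * v) := by
      -- the mixed term
      have h3 : 2 * (p 2 * q 2) ≤ p 1 * v + q 1 * u := by
        have h4 : (p 2 * q 2) ^ 2 ≤ (p 1 * v) * (q 1 * u) := by
          have := mul_le_mul p4 q4 (sq_nonneg _) (mul_nonneg p1 s1)
          nlinarith
        have h5 : 0 ≤ p 1 * v := mul_nonneg p1 s2
        have h6 : 0 ≤ q 1 * u := mul_nonneg q1 s1
        have h7 : (2 * (p 2 * q 2)) ^ 2 ≤ (p 1 * v + q 1 * u) ^ 2 := by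
          nlinarith [sq_nonneg (p 1 * v - q 1 * u)]
        exact le_of_sq_le_sq h7 (by linarith)
      nlinarith [mul_le_mul_of_nonneg_left p4 (mul_nonneg ha ha),
        mul_le_mul_of_nonneg_left q4 (mul_nonneg hb hb),
        mul_le_mul_of_nonneg_left h3 (mul_nonneg ha hb)]
    refine h2.trans (mul_le_mul_of_nonneg_left h1 ?_)
    positivity

lemma inn (a b c : ℝ) (p : EuclideanSpace ℝ (Fin 3)) :
    ⟪(!₂[a, b, c] : EuclideanSpace ℝ (Fin 3)), p⟫_ℝ = a * p 0 + b * p 1 + c * p 2 := by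
  simp [PiLp.inner_apply, Fin.sum_univ_three]
  ring

lemma F0_zero (x p : EuclideanSpace ℝ (Fin 3)) : ⟪F0 0 x, p⟫_ℝ = 2 * p 0 - p 2 := by
  simp only [F0, if_true, inn]; ring

lemma F0_one (x p : EuclideanSpace ℝ (Fin 3)) : ⟪F0 1 x, p⟫_ℝ = -2 * p 0 - p 2 := by
  simp only [F0, one_ne_zero, if_false, inn]; ring

/-- Weak Pareto solutions have `|x| = 1`. -/
lemma solW_sub {p : EuclideanSpace ℝ (Fin 3)} (hp : p ∈ SolW F0 K0) : |p 0| = 1 := by
  obtain ⟨⟨p1, p2, p3, p4⟩, h⟩ := hp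
  by_contra hne
  have hlt : |p 0| < 1 := lt_of_le_of_ne (by linarith) hne
  set L := 1 - |p 0| with hL
  have hL0 : 0 < L := by linarith
  have h1 : p 2 < L := by
    rcases lt_or_eq_of_le (show p 2 ≤ L by linarith) with h | h
    · exact h
    · exfalso
      rw [h, sub_self, mul_zero] at p4
      nlinarith
  set w := (p 2 + L) / 2 with hw
  have hwL : 0 < L - w := by rw [hw]; linarith
  have hw2 : p 2 < w := by rw [hw]; linarith
  refine h (!₂[p 0, w ^ 2 / (L - w), w]) ?_ ?_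
  · refine ⟨?_, ?_, ?_, ?_⟩
    · show 0 ≤ w ^ 2 / (L - w)
      positivity
    · show 0 ≤ w
      linarith
    · show |p 0| + w ≤ 1
      linarith
    · show w ^ 2 ≤ w ^ 2 / (L - w) * (1 - |p 0| - w)
      rw [← hL, div_mul_cancel₀ _ hwL.ne']
  · intro l
    fin_cases l
    · show 0 < ⟪F0 0 p, p - !₂[p 0, w ^ 2 / (L - w), w]⟫_ℝ
      rw [F0_zero]
      have e0 : (p - !₂[p 0, w ^ 2 / (L - w), w]) 0 = 0 := by simp
      have e2 : (p - !₂[p 0, w ^ 2 / (L - w), w]) 2 = p 2 - w := by simp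
      rw [e0, e2]; linarith
    · show 0 < ⟪F0 1 p, p - !₂[p 0, w ^ 2 / (L - w), w]⟫_ℝ
      rw [F0_one]
      have e0 : (p - !₂[p 0, w ^ 2 / (L - w), w]) 0 = 0 := by simp
      have e2 : (p - !₂[p 0, w ^ 2 / (L - w), w]) 2 = p 2 - w := by simp
      rw [e0, e2]; linarith

lemma pr_sub_sol {F : Fin m → EuclideanSpace ℝ (Fin n) → EuclideanSpace ℝ (Fin n)}
    {K : Set (EuclideanSpace ℝ (Fin n))} : SolPr F K ⊆ Sol F K := by
  rintro x ⟨ξ, hξ, _, hx, h⟩
  refine ⟨hx, fun y hy => ?_⟩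
  rintro ⟨h1, l, hl⟩
  have h2 := h y hy
  have h3 : ⟪∑ l, ξ l • F l x, y - x⟫_ℝ = - ∑ l, ξ l * ⟪F l x, x - y⟫_ℝ := by
    rw [sum_inner, ← Finset.sum_neg_distrib]
    refine Finset.sum_congr rfl fun k _ => ?_
    rw [real_inner_smul_left, ← neg_sub x y, inner_neg_right]
    ring
  have h4 : 0 < ∑ l, ξ l * ⟪F l x, x - y⟫_ℝ :=
    Finset.sum_pos' (fun k _ => mul_nonneg (hξ k).le (h1 k))
      ⟨l, Finset.mem_univ _, mul_pos (hξ l) (lt_of_le_of_ne (h1 l) (Ne.symm hl))⟩
  linarith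

lemma sol_sub_w {F : Fin m → EuclideanSpace ℝ (Fin n) → EuclideanSpace ℝ (Fin n)}
    {K : Set (EuclideanSpace ℝ (Fin n))} (hm : 0 < m) : Sol F K ⊆ SolW F K := by
  rintro x ⟨hx, h⟩
  exact ⟨hx, fun y hy h1 => h y hy ⟨fun l => (h1 l).le, ⟨0, hm⟩, (h1 _).ne'⟩⟩

/-- The points `(-1, 0, 0)` and `(1, 0, 0)` are proper Pareto solutions. -/
lemma mem_pr (s : ℝ) (hs : s = 1 ∨ s = -1) :
    (!₂[s, 0, 0] : EuclideanSpace ℝ (Fin 3)) ∈ SolPr F0 K0 := by
  refine ⟨fun l => if l = 0 then (2 - s) / 4 else (2 + s) / 4, ?_, ?_, ?_, ?_⟩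
  · intro l
    fin_cases l
    · show 0 < (2 - s) / 4
      rcases hs with rfl | rfl <;> norm_num
    · show 0 < (2 + s) / 4
      rcases hs with rfl | rfl <;> norm_num
  · rw [Fin.sum_univ_two]
    simp only [if_true, one_ne_zero, if_false]
    ring
  · refine ⟨?_, ?_, ?_, ?_⟩
    · show (0 : ℝ) ≤ 0
      exact le_rfl
    · show (0 : ℝ) ≤ 0
      exact le_rfl
    · show |s| + 0 ≤ 1
      rcases hs with rfl | rfl <;> norm_num
    · show (0 : ℝ) ^ 2 ≤ 0 * (1 - |s| - 0)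
      norm_num
  · intro q hq
    obtain ⟨q1, q2, q3, q4⟩ := hq
    rw [Fin.sum_univ_two]
    simp only [if_true, one_ne_zero, if_false]
    rw [inner_add_left, real_inner_smul_left, real_inner_smul_left, F0_zero, F0_one]
    have e0 : (q - !₂[s, 0, 0]) 0 = q 0 - s := by simp
    have e2 : (q - !₂[s, 0, 0]) 2 = q 2 := by simp
    rw [e0, e2]
    have h1 := le_abs_self (q 0)
    have h2 := neg_abs_le (q 0)
    rcases hs with rfl | rfl
    · linarith
    · linarith

/-- A set of points with `|x| = 1` containing points with `x = 1` and `x = -1` is not connected. -/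
lemma not_conn {S : Set (EuclideanSpace ℝ (Fin 3))} (h1 : S ⊆ SolW F0 K0)
    (h2 : SolPr F0 K0 ⊆ S) : S.Nonempty ∧ ¬ IsConnected S := by
  have a1 := h2 (mem_pr 1 (Or.inl rfl))
  have a2 := h2 (mem_pr (-1) (Or.inr rfl))
  refine ⟨⟨_, a1⟩, fun hc => ?_⟩
  have c0 : Continuous fun p : EuclideanSpace ℝ (Fin 3) => p 0 := by fun_prop
  have h3 : IsPreconnected ((fun p : EuclideanSpace ℝ (Fin 3) => p 0) '' S) :=
    hc.isPreconnected.image _ c0.continuousOn
  have h4 := h3.Icc_subset (a := -1) (b := 1) ⟨_, a2, rfl⟩ ⟨_, a1, rfl⟩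
  obtain ⟨p, hp, hp0⟩ := h4 (show (0 : ℝ) ∈ Set.Icc (-1) 1 by constructor <;> norm_num)
  have h5 := solW_sub (h1 hp)
  simp only at hp0
  rw [hp0] at h5
  norm_num at h5

/-- **Theorem.** All parts of Q1 fail: a symmetric monotone problem with two constant maps on a
closed convex set in `ℝ³`, whose weak Pareto, Pareto and proper Pareto solution sets are nonempty
and not connected. -/
theorem result : ∃ (F : Fin 2 → EuclideanSpace ℝ (Fin 3) → EuclideanSpace ℝ (Fin 3))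
    (K : Set (EuclideanSpace ℝ (Fin 3))),
    K.Nonempty ∧ IsClosed K ∧ Convex ℝ K ∧ (∀ l, Continuous (F l)) ∧
    Monotone' F K ∧ Symmetric' F K ∧
    ((SolW F K).Nonempty ∧ ¬ IsConnected (SolW F K)) ∧
    ((Sol F K).Nonempty ∧ ¬ IsConnected (Sol F K)) ∧
    ((SolPr F K).Nonempty ∧ ¬ IsConnected (SolPr F K)) := by
  have w := sol_sub_w (F := F0) (K := K0) (by norm_num)
  have pr := pr_sub_sol (F := F0) (K := K0)
  refine ⟨F0, K0, ⟨_, (mem_pr 1 (Or.inl rfl)).choose_spec.2.2.1⟩, K0_closed, K0_convex, ?_, ?_, ?_,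
    not_conn subset_rfl (pr.trans w), not_conn w pr, not_conn (pr.trans w) subset_rfl⟩
  · intro l
    exact continuous_const
  · intro l x _ y _
    have : F0 l y - F0 l x = 0 := sub_self _
    rw [this, inner_zero_left]
  · intro l
    refine ⟨⟨Set.univ, isOpen_univ, Set.subset_univ _, fun x _ => differentiableAt_const _⟩,
      fun x _ i j => ?_⟩
    have : fderiv ℝ (F0 l) x = 0 := fderiv_const_apply _
    rw [this]
    rfl

end Pool.Agent.Results.MP_e5975b_an.Disconnected
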